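import Pool.Agent.H.MP_b9f959_al.A

set_option autoImplicit false

namespace Pool.Agent.Results.MP_b9f959_al.Yes

universe u

def Ascendant {G : Type u} [Group G] (H K : Subgroup G) : Prop :=
  ∃ (α : Ordinal.{u}) (c : Ordinal.{u} → Subgroup G), c 0 = H ∧ c α = K ∧
    (∀ β < α, c β ≤ c (β + 1) ∧ ((c β).subgroupOf (c (β + 1))).Normal) ∧
    ∀ l ≤ α, Order.IsSuccLimit l → c l = ⨆ β < l, c β

theorem result (G : Type u) [Group G]
    (hG : ∀ X : Set G, ∃ X₀ : Finset G, (X₀ : Set G) ⊆ X ∧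
      Subgroup.centralizer X = Subgroup.centralizer (X₀ : Set G)) :
    {a : G | ∀ x : G, ∃ n : ℕ, (fun y : G => y⁻¹ * x⁻¹ * y * x)^[n] a = 1} =
      {a : G | ∀ x : G, Ascendant (Subgroup.zpowers x)
        (Subgroup.zpowers x ⊔ Subgroup.normalClosure {a})} :=
  Set.ext fun a => Pool.Agent.H.MP_b9f959_al.rho (Pool.Agent.H.MP_a1472e_al.mc_fin hG) a

end Pool.Agent.Results.MP_b9f959_al.Yes
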